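import Pool.Agent.helper19.MX.SpecA

/-!
# Project mx, row LHE: Hensel's lemma in the field of Laurent series
-/

namespace MX

open Pool.Agent.helper53.AU AN
open scoped Classical Topology
open Finset (range powerset Icc)

noncomputable section

/-- power series as Laurent series -/
def LHE_i : PowerSeries (ZMod 2) →+* LS (ZMod 2) :=
  (HahnSeries.ofPowerSeries ℤ (ZMod 2) : PowerSeries (ZMod 2) →+* HahnSeries ℤ (ZMod 2))

theorem LHE_cf (f : PowerSeries (ZMod 2)) (n : ℤ) :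
    cf (LHE_i f) n = if n < 0 then 0 else PowerSeries.coeff n.natAbs f :=
  PowerSeries.coeff_coe f n

theorem LHE_ps (α : LS (ZMod 2)) (h : α ∈ GE (ZMod 2) 0) : ∃ f, LHE_i f = α := by
  refine ⟨PowerSeries.mk fun n => cf α n, ?_⟩
  ext n
  rw [LHE_cf]
  split_ifs with h1
  · exact (h n h1).symm
  · rw [PowerSeries.coeff_mk]
    congr 1
    omega

/-- the order of a nonzero series -/
theorem LHE_order (y : LS (ZMod 2)) (hy : y ≠ 0) : ∃ a : ℤ, y ∈ GE (ZMod 2) a ∧ cf y a ≠ 0 :=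
  ⟨HahnSeries.order (y : HahnSeries ℤ (ZMod 2)),
    fun _ hn => HahnSeries.coeff_eq_zero_of_lt_order hn,
    fun h => hy (HahnSeries.coeff_order_eq_zero.1 h)⟩

theorem LHE_inv (y : LS (ZMod 2)) (a : ℤ) (h1 : y ∈ GE (ZMod 2) a) (h2 : cf y a ≠ 0) :
    y⁻¹ ∈ GE (ZMod 2) (-a) := by
  have hy : y ≠ 0 := by
    rintro rfl
    exact h2 (cf_zero a)
  obtain ⟨b, hb1, hb2⟩ := LHE_order y⁻¹ (inv_ne_zero hy)
  have h3 := cf_mul_lead h1 hb1
  rw [mul_inv_cancel₀ hy, cf_one] at h3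
  have h4 : cf y a * cf y⁻¹ b ≠ 0 := mul_ne_zero h2 hb2
  rw [← h3] at h4
  split_ifs at h4 with h5
  · have h6 : b = -a := by omega
    rw [← h6]
    exact hb1
  · exact absurd rfl h4

theorem LHE_pow {d : ℤ} (hd : d ≤ 0) {x : LS (ZMod 2)} (hx : x ∈ GE (ZMod 2) d) (k m : ℕ)
    (hk : k ≤ m) : x ^ k ∈ GE (ZMod 2) (m * d) := by
  have h1 : ∀ k : ℕ, x ^ k ∈ GE (ZMod 2) (k * d) := by
    intro k
    induction k with
    | zero =>
      rw [pow_zero]
      simpa using one_mem_PS (R := ZMod 2)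
    | succ k ih =>
      rw [pow_succ]
      have h2 := GE_mul ih hx
      have h3 : ((k + 1 : ℕ) : ℤ) * d = k * d + d := by push_cast; ring
      rw [h3]
      exact h2
  refine GE_mono ?_ (h1 k)
  have h4 : (k : ℤ) ≤ m := by exact_mod_cast hk
  nlinarith

theorem LHE_natCast (n : ℕ) : (n : LS (ZMod 2)) ∈ GE (ZMod 2) 0 := by
  have h1 : (n : LS (ZMod 2)) = LS.C (n : ZMod 2) := (map_natCast LS.C n).symm
  rw [h1]
  exact C_mem_PS _

/-- a small solution of `α₀ + U + ∑ α_(j+2) U^(j+2) = 0` -/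
theorem LHE_small (k : ℕ) (α₀ : LS (ZMod 2)) (α : ℕ → LS (ZMod 2)) (h0 : α₀ ∈ GE (ZMod 2) 1)
    (h : ∀ j < k, α j ∈ GE (ZMod 2) 1) : ∃ U ∈ GE (ZMod 2) 0,
      α₀ + U + ∑ j ∈ range k, α j * U ^ (j + 2) = 0 := by
  have h0' : α₀ ∈ GE (ZMod 2) 0 := GE_mono (by norm_num) h0
  have hpow : ∀ j : ℕ, α₀ ^ j ∈ GE (ZMod 2) 0 := by
    intro j
    induction j with
    | zero =>
      rw [pow_zero]
      exact one_mem_PS
    | succ j ih =>
      rw [pow_succ]
      exact PS_mul ih h0'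
  have hβ : ∀ j, ∃ B : PowerSeries (ZMod 2), j < k → LHE_i B = α j * α₀ ^ (j + 1) := by
    intro j
    by_cases hj : j < k
    · obtain ⟨B, hB⟩ := LHE_ps (α j * α₀ ^ (j + 1))
        (PS_mul (GE_mono (by norm_num) (h j hj)) (hpow (j + 1)))
      exact ⟨B, fun _ => hB⟩
    · exact ⟨0, fun h => absurd h hj⟩
  choose B hB using hβ
  have hB0 : ∀ j < k, B j ∈ Ideal.span {(PowerSeries.X : PowerSeries (ZMod 2))} := by
    intro j hj
    rw [Ideal.mem_span_singleton, PowerSeries.X_dvd_iff, ← PowerSeries.coeff_zero_eq_constantCoeff_apply]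
    have h1 := LHE_cf (B j) 0
    rw [hB j hj] at h1
    simp only [lt_irrefl, if_false, Int.natAbs_zero] at h1
    rw [← h1]
    have h2 : α j * α₀ ^ (j + 1) ∈ GE (ZMod 2) (1 + 0) := GE_mul (h j hj) (hpow (j + 1))
    exact h2 0 (by norm_num)
  obtain ⟨f, hf⟩ : ∃ f : Polynomial (PowerSeries (ZMod 2)), f = Polynomial.X ^ (k + 1) +
    (Polynomial.X ^ k + ∑ j ∈ range k, Polynomial.C (B j) * Polynomial.X ^ (k - 1 - j)) := ⟨_, rfl⟩
  have hmonic : f.Monic := by
    rw [hf]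
    refine Polynomial.monic_X_pow_add ?_
    rw [← Polynomial.mem_degreeLT]
    refine Submodule.add_mem _ ?_ (Submodule.sum_mem _ fun j hj => ?_)
    · rw [Polynomial.mem_degreeLT]
      refine lt_of_le_of_lt (Polynomial.degree_X_pow_le k) ?_
      exact_mod_cast Nat.lt_succ_self k
    · rw [Polynomial.mem_degreeLT]
      refine lt_of_le_of_lt (Polynomial.degree_C_mul_X_pow_le _ _) ?_
      have := Finset.mem_range.1 hj
      exact_mod_cast (by omega : k - 1 - j < k + 1)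
  have h2 : (2 : PowerSeries (ZMod 2)) = 0 := by
    have h3 : (2 : PowerSeries (ZMod 2)) = PowerSeries.C (2 : ZMod 2) :=
      (map_ofNat PowerSeries.C 2).symm
    rw [h3]
    have h4 : (2 : ZMod 2) = 0 := by decide
    rw [h4, map_zero]
  have hsum : ∀ g : ℕ → PowerSeries (ZMod 2), ∑ j ∈ range k, B j * g j ∈
      Ideal.span {(PowerSeries.X : PowerSeries (ZMod 2))} := fun g =>
    Ideal.sum_mem _ fun j hj => Ideal.mul_mem_right _ _ (hB0 j (Finset.mem_range.1 hj))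
  have hev : f.eval 1 ∈ Ideal.span {(PowerSeries.X : PowerSeries (ZMod 2))} := by
    rw [hf]
    simp only [Polynomial.eval_add, Polynomial.eval_pow, Polynomial.eval_X, one_pow,
      Polynomial.eval_finsetSum, Polynomial.eval_mul, Polynomial.eval_C]
    have h3 := hsum fun _ => 1
    have h4 : (1 : PowerSeries (ZMod 2)) + (1 + ∑ j ∈ range k, B j * 1) =
        ∑ j ∈ range k, B j * 1 := by
      linear_combination h2
    rw [h4]
    exact h3
  have hder : IsUnit (Ideal.Quotient.mk (Ideal.span {(PowerSeries.X : PowerSeries (ZMod 2))})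
      (f.derivative.eval 1)) := by
    have h3 : f.derivative.eval 1 = 1 + ∑ j ∈ range k, B j * ((k - 1 - j : ℕ) : PowerSeries (ZMod 2)) := by
      rw [hf]
      simp only [Polynomial.derivative_add, Polynomial.derivative_X_pow, Polynomial.derivative_sum,
        Polynomial.derivative_C_mul_X_pow, Polynomial.eval_add, Polynomial.eval_mul,
        Polynomial.eval_pow, Polynomial.eval_X, one_pow, mul_one, Polynomial.eval_finsetSum,
        Polynomial.eval_C]
      push_cast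
      linear_combination (k : PowerSeries (ZMod 2)) * h2
    rw [h3, map_add, map_one, Ideal.Quotient.eq_zero_iff_mem.2 (hsum _), add_zero]
    exact isUnit_one
  obtain ⟨W, hW, hW1⟩ := HenselianRing.is_henselian
    (I := Ideal.span {(PowerSeries.X : PowerSeries (ZMod 2))}) f hmonic 1 hev hder
  obtain ⟨w, hw⟩ : ∃ w, w = LHE_i W := ⟨_, rfl⟩
  have hwGE : w ∈ GE (ZMod 2) 0 := by
    intro n hn
    rw [hw, LHE_cf, if_pos hn]
  have hw0 : cf w 0 = 1 := by
    rw [hw, LHE_cf, if_neg (lt_irrefl 0)]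
    rw [Ideal.mem_span_singleton, PowerSeries.X_dvd_iff, map_sub, map_one, sub_eq_zero] at hW1
    simpa using hW1
  have hw1 : cf w 0 ≠ 0 := by
    rw [hw0]
    exact one_ne_zero
  have hwne : w ≠ 0 := by
    rintro h
    rw [h] at hw1
    exact hw1 (cf_zero 0)
  have hwinv : w⁻¹ ∈ GE (ZMod 2) 0 := by
    have h3 := LHE_inv w 0 hwGE hw1
    simpa using h3
  have heq : w ^ (k + 1) + (w ^ k + ∑ j ∈ range k, α j * α₀ ^ (j + 1) * w ^ (k - 1 - j)) = 0 := by
    have h3 : f.eval W = 0 := hW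
    rw [hf] at h3
    simp only [Polynomial.eval_add, Polynomial.eval_pow, Polynomial.eval_X,
      Polynomial.eval_finsetSum, Polynomial.eval_mul, Polynomial.eval_C] at h3
    have h4 := congrArg LHE_i h3
    rw [map_add, map_add, map_pow, map_pow, map_sum, map_zero, ← hw] at h4
    rw [← h4]
    refine congrArg (fun z => w ^ (k + 1) + (w ^ k + z)) (Finset.sum_congr rfl fun j hj => ?_)
    rw [map_mul, map_pow, hB j (Finset.mem_range.1 hj), ← hw]
  refine ⟨α₀ * w⁻¹, PS_mul h0' hwinv, ?_⟩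
  have h5 : (α₀ + α₀ * w⁻¹ + ∑ j ∈ range k, α j * (α₀ * w⁻¹) ^ (j + 2)) * w ^ (k + 1) =
      α₀ * (w ^ (k + 1) + (w ^ k + ∑ j ∈ range k, α j * α₀ ^ (j + 1) * w ^ (k - 1 - j))) := by
    rw [add_mul, add_mul, mul_add, mul_add, Finset.sum_mul, Finset.mul_sum]
    have h6 : α₀ * w⁻¹ * w ^ (k + 1) = α₀ * w ^ k := by
      rw [pow_succ]
      field_simp
    rw [h6, add_assoc]
    refine congrArg (fun z => α₀ * w ^ (k + 1) + (α₀ * w ^ k + z)) (Finset.sum_congr rfl fun j hj => ?_)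
    have hj' := Finset.mem_range.1 hj
    have h7 : w ^ (k + 1) = w ^ (j + 2) * w ^ (k - 1 - j) := by
      rw [← pow_add]
      congr 1
      omega
    rw [h7, mul_pow, inv_pow]
    have h8 : w ^ (j + 2) ≠ 0 := pow_ne_zero _ hwne
    field_simp
    ring
  rw [heq, mul_zero] at h5
  exact (mul_eq_zero.1 h5).resolve_right (pow_ne_zero _ hwne)

/-- Row LHE. -/
theorem LHE : LHE_stmt := by
  intro m c x₀ hroot hder N
  -- `m = k + 1`
  obtain ⟨k, rfl⟩ : ∃ k, m = k + 1 := by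
    refine ⟨m - 1, ?_⟩
    rcases Nat.eq_zero_or_pos m with h | h
    · exfalso
      apply hder
      rw [h]
      simp
    · omega
  -- Taylor coefficients
  obtain ⟨q, hq⟩ : ∃ q : (ℕ → LS (ZMod 2)) → ℕ → LS (ZMod 2), ∀ c j, q c j =
    ∑ i ∈ range (k + 1 + 1), c i * ((i.choose j : ℕ) : LS (ZMod 2)) * x₀ ^ (i - j) :=
    ⟨_, fun _ _ => rfl⟩
  have hTay : ∀ (c : ℕ → LS (ZMod 2)) (T : LS (ZMod 2)),
      ∑ i ∈ range (k + 1 + 1), c i * (x₀ + T) ^ i = ∑ j ∈ range (k + 1 + 1), q c j * T ^ j := by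
    intro c T
    have h1 : ∀ i ∈ range (k + 1 + 1), c i * (x₀ + T) ^ i = ∑ j ∈ range (k + 1 + 1),
        c i * ((i.choose j : ℕ) : LS (ZMod 2)) * x₀ ^ (i - j) * T ^ j := by
      intro i hi
      have h2 : (x₀ + T) ^ i = ∑ j ∈ range (k + 1 + 1),
          T ^ j * x₀ ^ (i - j) * ((i.choose j : ℕ) : LS (ZMod 2)) := by
        rw [add_comm, add_pow]
        refine Finset.sum_subset (Finset.range_mono (by
          have := Finset.mem_range.1 hi
          omega)) fun j _ hj => ?_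
        rw [Finset.mem_range, not_lt] at hj
        rw [Nat.choose_eq_zero_of_lt (by omega)]
        simp
      rw [h2, Finset.mul_sum]
      exact Finset.sum_congr rfl fun j _ => by ring
    rw [Finset.sum_congr rfl h1, Finset.sum_comm]
    refine Finset.sum_congr rfl fun j _ => ?_
    rw [hq, Finset.sum_mul]
  have hq0 : q c 0 = 0 := by
    rw [hq, ← hroot]
    exact Finset.sum_congr rfl fun i _ => by simp
  have hq1 : q c 1 ≠ 0 := by
    have h1 : q c 1 = ∑ i ∈ range (k + 1 + 1), (i : LS (ZMod 2)) * c i * x₀ ^ (i - 1) := by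
      rw [hq]
      exact Finset.sum_congr rfl fun i _ => by rw [Nat.choose_one_right]; ring
    rw [h1]
    exact hder
  obtain ⟨a, ha1, ha2⟩ := LHE_order _ hq1
  obtain ⟨d, hd⟩ := exists_lb_nat x₀
  have hdx : x₀ ∈ GE (ZMod 2) (-(d : ℤ)) := hd
  choose b hb using fun j => exists_lb_nat (q c j)
  obtain ⟨b', hb'⟩ : ∃ b' : ℕ, ∀ j ∈ range (k + 1 + 1), b j ≤ b' :=
    ⟨∑ j ∈ range (k + 1 + 1), b j, fun j hj =>
      Finset.single_le_sum (f := b) (fun _ _ => Nat.zero_le _) hj⟩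
  obtain ⟨D, hD⟩ : ∃ D : ℤ, D = ((k + 1 : ℕ) : ℤ) * (-(d : ℤ)) := ⟨_, rfl⟩
  obtain ⟨e, he1, he2, he3⟩ : ∃ e : ℤ, 0 ≤ e ∧ N ≤ e ∧ 1 + a + b' ≤ e :=
    ⟨max 0 (max N (1 + a + b')), le_max_left _ _, (le_max_left _ _).trans (le_max_right _ _),
      (le_max_right _ _).trans (le_max_right _ _)⟩
  obtain ⟨M, hM1, hM2, hM3⟩ : ∃ M : ℤ, a + 1 ≤ M + D ∧ -(b' : ℤ) ≤ M + D ∧ 1 + a + e ≤ M + D :=
    ⟨max (a + 1) (max (-(b' : ℤ)) (1 + a + e)) - D, by
      have := le_max_left (a + 1) (max (-(b' : ℤ)) (1 + a + e)); omega, by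
      have h1 := le_max_right (a + 1) (max (-(b' : ℤ)) (1 + a + e))
      have h2 := le_max_left (-(b' : ℤ)) (1 + a + e)
      omega, by
      have h1 := le_max_right (a + 1) (max (-(b' : ℤ)) (1 + a + e))
      have h2 := le_max_right (-(b' : ℤ)) (1 + a + e)
      omega⟩
  refine ⟨M, fun c' hc' => ?_⟩
  have hdiff : ∀ j, q c' j - q c j ∈ GE (ZMod 2) (M + D) := by
    intro j
    rw [hq, hq, ← Finset.sum_sub_distrib]
    refine Submodule.sum_mem _ fun i hi => ?_
    have h1 : c' i * ((i.choose j : ℕ) : LS (ZMod 2)) * x₀ ^ (i - j) -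
        c i * ((i.choose j : ℕ) : LS (ZMod 2)) * x₀ ^ (i - j) =
        (c' i - c i) * ((i.choose j : ℕ) : LS (ZMod 2)) * x₀ ^ (i - j) := by ring
    rw [h1, hD]
    have hi' := Finset.mem_range.1 hi
    have h2 : c' i - c i ∈ GE (ZMod 2) M := fun n hn => hc' i (by omega) n hn
    have h3 := GE_mul h2 (LHE_natCast (i.choose j))
    rw [add_zero] at h3
    exact GE_mul h3 (LHE_pow (by omega) hdx (i - j) (k + 1) (by omega))
  -- the first derivative
  have hq1' : q c' 1 ∈ GE (ZMod 2) a ∧ cf (q c' 1) a ≠ 0 := by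
    have h1 : q c' 1 = q c 1 + (q c' 1 - q c 1) := by ring
    have h2 := hdiff 1
    constructor
    · rw [h1]
      exact Submodule.add_mem _ ha1 (GE_mono (by omega) h2)
    · rw [h1, cf_add, h2 a (by omega), add_zero]
      exact ha2
  have hq1ne : q c' 1 ≠ 0 := by
    intro h
    apply hq1'.2
    rw [h, cf_zero]
  have hinv := LHE_inv _ a hq1'.1 hq1'.2
  have hqj : ∀ j ∈ range (k + 1 + 1), q c' j ∈ GE (ZMod 2) (-(b' : ℤ)) := by
    intro j hj
    have h1 : q c' j = q c j + (q c' j - q c j) := by ring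
    rw [h1]
    refine Submodule.add_mem _ ?_ (GE_mono hM2 (hdiff j))
    have h2 : q c j ∈ GE (ZMod 2) (-(b j : ℤ)) := hb j
    have h3 := hb' j hj
    exact GE_mono (by omega) h2
  have hq0' : q c' 0 ∈ GE (ZMod 2) (M + D) := by
    have h1 := hdiff 0
    rwa [hq0, sub_zero] at h1
  -- the monomial
  obtain ⟨s, hs⟩ : ∃ s : LS (ZMod 2), s = mono e 1 := ⟨_, rfl⟩
  have hsi : mono (-e) (1 : ZMod 2) * s = 1 := by
    rw [hs, mono_mul_mono, neg_add_cancel, mul_one]
    ext n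
    rw [cf_mono, cf_one]
  have hsne : s ≠ 0 := by
    intro h
    rw [h, mul_zero] at hsi
    exact zero_ne_one hsi
  have hsinv : s⁻¹ = mono (-e) (1 : ZMod 2) := by
    rw [← eq_div_iff hsne] at hsi
    rw [hsi, one_div]
  have hsGE : s ∈ GE (ZMod 2) e := by rw [hs]; exact mono_mem_GE e 1
  have hspow : ∀ j : ℕ, s ^ (j + 1) ∈ GE (ZMod 2) e := by
    intro j
    induction j with
    | zero => simpa using hsGE
    | succ j ih =>
      rw [pow_succ]
      exact GE_mono (by omega) (GE_mul ih hsGE)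
  obtain ⟨U, hU1, hU2⟩ := LHE_small k (q c' 0 * (q c' 1)⁻¹ * s⁻¹)
    (fun j => q c' (j + 2) * (q c' 1)⁻¹ * s ^ (j + 1)) (by
      have h1 := GE_mul (GE_mul hq0' hinv) (show s⁻¹ ∈ GE (ZMod 2) (-e) by
        rw [hsinv]; exact mono_mem_GE (-e) 1)
      exact GE_mono (by omega) h1) (fun j hj => by
      have h1 := GE_mul (GE_mul (hqj (j + 2) (Finset.mem_range.2 (by omega))) hinv) (hspow j)
      exact GE_mono (by omega) h1)
  refine ⟨x₀ + s * U, ?_, ?_⟩
  · have h1 : x₀ + s * U - x₀ = s * U := by ring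
    rw [h1]
    have h2 : s * U ∈ GE (ZMod 2) N := GE_mono (by omega) (GE_mul hsGE hU1)
    exact h2
  · rw [hTay, Finset.sum_range_succ', Finset.sum_range_succ']
    have h1 : ∀ j ∈ range k, q c' (j + 1 + 1) * (s * U) ^ (j + 1 + 1) =
        q c' 1 * s * (q c' (j + 2) * (q c' 1)⁻¹ * s ^ (j + 1) * U ^ (j + 2)) := by
      intro j _
      have h2 : q c' 1 * (q c' 1)⁻¹ = 1 := mul_inv_cancel₀ hq1ne
      rw [mul_pow]
      linear_combination (-(q c' (j + 2) * s ^ (j + 2) * U ^ (j + 2))) * h2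
    rw [Finset.sum_congr rfl h1, ← Finset.mul_sum]
    have h2 : q c' 1 * (q c' 1)⁻¹ = 1 := mul_inv_cancel₀ hq1ne
    have h3 : s * s⁻¹ = 1 := mul_inv_cancel₀ hsne
    linear_combination (q c' 1 * s) * hU2 - q c' 0 * s * s⁻¹ * h2 - q c' 0 * h3

end

end MX
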