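import Pool.Agent.helper19.MX.SpecD

/-!
# Project mx, row TOW: the tower
-/

namespace MX

open Pool.Agent.helper53.AU AN
open scoped Classical Topology IntermediateField
open Finset (range powerset Icc)

noncomputable section

theorem TOW_add_sq {R : Type} [CommRing R] [CharP R 2] (a b : R) : (a + b) ^ 2 = a ^ 2 + b ^ 2 :=
  CharTwo.add_sq a b

theorem TOW_add_self {R : Type} [CommRing R] [CharP R 2] (a : R) : a + a = 0 := CharTwo.add_self_eq_zero a

/-- degrees in the tower -/
theorem TOW_finrank (k F : Type) [Field k] [Field F] [Algebra k F] (E : IntermediateField k F) (x : E) :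
    Module.finrank k⟮(x : F)⟯ F = Module.finrank k⟮x⟯ E * Module.finrank E F := by
  rw [Module.finrank_mul_finrank k⟮x⟯ E F]
  have h1 : IntermediateField.lift k⟮x⟯ = k⟮(x : F)⟯ := IntermediateField.lift_adjoin_simple k E x
  rw [← h1]
  exact (Algebra.finrank_eq_of_equiv_equiv
    (IntermediateField.liftAlgEquiv (k⟮x⟯ : IntermediateField k E)).toRingEquiv
    (RingEquiv.refl F) (by ext z; rfl)).symm

/-- Row TOW. -/
theorem TOW (hRST : RST_stmt) (hQEL : QEL_stmt) (hQU1 : QU1_stmt) (hQU2 : QU2_stmt) (hRED : RED_stmt)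
    (hRTR : RTR_stmt) (hLIN : LIN_stmt) (hSBF : SBF_stmt) : TOW_stmt := by
  intro k F _ _ _ _ hperf x r
  induction r generalizing F with
  | zero =>
    intro y f hAS
    have hgen : k⟮x⟯ = ⊤ := by
      have h1 := hAS.gen
      have h2 : ({x} ∪ y '' {j | j < 0} : Set F) = {x} := by
        simp
      rw [h2] at h1
      exact h1
    obtain ⟨P, hP1, hP2, hP3, hP4⟩ := hLIN k F x hAS.tr hgen
    refine ⟨?_, P, hP1, ?_, hP3, fun φ u h => hP4 φ u ?_⟩
    · rw [hgen, IntermediateField.finrank_top]
      simp
    · rw [hP2]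
      simp
    · have := h ∅ (Finset.empty_subset _)
      simpa using this
  | succ r ih =>
    intro y f hAS
    obtain ⟨E, x', y', hx', hy', hE, hASE, hgen⟩ := hSBF k F x r y f hAS
    have : CharP E 2 := charP_of_injective_algebraMap (algebraMap k E).injective 2
    have : CharP F 2 := charP_of_injective_algebraMap (algebraMap k F).injective 2
    obtain ⟨hfin, P, hP1, hP2, hP3, hP4⟩ := ih E x' y' f hASE
    obtain ⟨u, hu⟩ := hRED k E hperf P hP1 (Polynomial.aeval x' (f r))
    obtain ⟨φ, hφ⟩ : ∃ φ, φ = Polynomial.aeval x' (f r) + u ^ 2 + u := ⟨_, rfl⟩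
    rw [← hφ] at hu
    have hno : ¬ P.Ge 0 φ := by
      rw [hφ]
      refine hP4 (f r) u fun T hT => ?_
      have h1 := hAS.odd (insert r T) (by
        intro j hj
        rcases Finset.mem_insert.1 hj with h | h
        · rw [h]; exact Finset.mem_range.2 (Nat.lt_succ_self r)
        · exact Finset.mem_range.2 (Nat.lt_succ_of_lt (Finset.mem_range.1 (hT h)))) (Finset.insert_ne_empty _ _)
      rwa [Finset.sum_insert (fun h => lt_irrefl _ (Finset.mem_range.1 (hT h)))] at h1
    obtain ⟨hφ0, m, hm, hord⟩ := hu.resolve_left hno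
    obtain ⟨z, hz⟩ : ∃ z : F, z = y r + algebraMap E F u := ⟨_, rfl⟩
    have halg : ∀ p : Polynomial k, algebraMap E F (Polynomial.aeval x' p) = Polynomial.aeval x p := by
      intro p
      rw [← Polynomial.aeval_algebraMap_apply]
      exact congrArg (fun t => Polynomial.aeval t p) hx'
    have hzeq : z ^ 2 + z = algebraMap E F φ := by
      rw [hφ, map_add, map_add, map_pow, halg, ← hAS.eq r (Nat.lt_succ_self r), hz, TOW_add_sq]
      ring
    have hzgen : IntermediateField.adjoin E ({z} : Set F) = ⊤ := by
      rw [eq_top_iff, ← hgen, IntermediateField.adjoin_le_iff, Set.singleton_subset_iff]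
      have h1 : y r = z - algebraMap E F u := by rw [hz]; ring
      rw [h1]
      exact sub_mem (IntermediateField.mem_adjoin_simple_self E z)
        (IntermediateField.algebraMap_mem _ u)
    obtain ⟨Q, hQ1, hQ2, hQ3, hQ4⟩ := hQU1 k E F z φ P m hzeq hzgen hP1 hm hφ0 hord
    have hnw : ∀ w : E, w ^ 2 + w ≠ φ := by
      intro w hw
      refine hP4 (f r) (u + w) (fun T hT => ?_) ?_
      · have h1 := hAS.odd (insert r T) (by
          intro j hj
          rcases Finset.mem_insert.1 hj with h | h
          · rw [h]; exact Finset.mem_range.2 (Nat.lt_succ_self r)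
          · exact Finset.mem_range.2 (Nat.lt_succ_of_lt (Finset.mem_range.1 (hT h)))) (Finset.insert_ne_empty _ _)
        rwa [Finset.sum_insert (fun h => lt_irrefl _ (Finset.mem_range.1 (hT h)))] at h1
      · have h1 : Polynomial.aeval x' (f r) + (u + w) ^ 2 + (u + w) = 0 := by
          rw [TOW_add_sq]
          have h2 : Polynomial.aeval x' (f r) + (u ^ 2 + w ^ 2) + (u + w) =
              (Polynomial.aeval x' (f r) + u ^ 2 + u) + (w ^ 2 + w) := by ring
          rw [h2, ← hφ, hw, TOW_add_self]
        rw [h1]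
        exact Or.inl rfl
    obtain ⟨hfin2, -, -⟩ := hQEL E F z φ hzeq hzgen hnw
    refine ⟨?_, Q, hQ1, ?_, ?_, ?_⟩
    · rw [← hx', TOW_finrank, hfin, hfin2, pow_succ]
    · rw [← hx']
      have h1 := hQ2 x'
      rw [hP2] at h1
      have h2 : Q.ord (x' : F) = 2 * -(2 ^ r : ℤ) := h1
      rw [h2, pow_succ]
      ring
    · intro P' hP'
      obtain ⟨P₁, e, he, hP₁⟩ := hRST k E F P' ⟨x', by
        rintro h
        have h1 : x = 0 := by rw [← hx', h]; rfl
        rw [h1, P'.ord_zero] at hP'
        exact lt_irrefl _ hP', by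
        have h1 : algebraMap E F x' = x := hx'
        rw [h1]
        exact ne_of_lt hP'⟩
      have h1 : P₁.ord x' < 0 := by
        have h2 := hP₁ x'
        have h3 : algebraMap E F x' = x := hx'
        rw [h3] at h2
        rw [h2] at hP'
        have h4 : (0 : ℤ) < e := by exact_mod_cast he
        by_contra h5
        push Not at h5
        have := mul_nonneg h4.le h5
        omega
      have h2 : P₁ = P := hP3 P₁ h1
      rw [h2] at hP₁
      exact hQU2 k E F z φ P m Q P' e hzeq hzgen hm hφ0 hord hQ2 hQ3 he hP₁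
    · intro φ' u' hodd hge
      rw [← halg] at hge
      obtain ⟨ε, a, hε, h1⟩ := hRTR k E F z φ P m Q hzeq hzgen hm hφ0 hord hQ2 hQ3 _ u' hge
      rcases hε with rfl | rfl
      · rw [zero_mul, add_zero] at h1
        refine hP4 φ' a (fun T hT => hodd T (hT.trans ?_)) h1
        exact Finset.range_mono (Nat.le_succ r)
      · refine hP4 (φ' + f r) (a + u) (fun T hT => ?_) ?_
        · have h2 := hodd (insert r T) (by
            intro j hj
            rcases Finset.mem_insert.1 hj with h | h
            · rw [h]; exact Finset.mem_range.2 (Nat.lt_succ_self r)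
            · exact Finset.mem_range.2 (Nat.lt_succ_of_lt (Finset.mem_range.1 (hT h))))
          rw [Finset.sum_insert (fun h => lt_irrefl _ (Finset.mem_range.1 (hT h))), ← add_assoc] at h2
          exact h2
        · have h2 : Polynomial.aeval x' (φ' + f r) + (a + u) ^ 2 + (a + u) =
              Polynomial.aeval x' φ' + a ^ 2 + a + 1 * φ := by
            rw [TOW_add_sq, hφ, map_add]
            ring
          rw [h2]
          exact h1

end

end MX
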